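import Pool.Agent.W5h38.CA.Main

/-!
# Self-similar groups with a contracting model of the proper actions are Farrell–Jones groups

`C` is any class of groups with the closure properties `Closed C`, all of which are known for the
class of the groups that satisfy the K- and L-theoretic Farrell–Jones conjecture with coefficients
and finite wreath products. A torsion-free group `G` in that class satisfies `K_n(RG) = 0` for all
regular rings `R` and all `n ≤ -1`.

Let `Γ` be a group with a wreath recursion `ψ : Γ → Γ ≀ Sym(X)`, `X` finite, hence with an action on
the tree of the words over `X`. Suppose that `Γ` acts properly and cocompactly by isometries on a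
metric space `Y`, and that `ψ` is induced by contractions: there are maps `c x : Y → Y` with Lipschitz
constant `λ < 1` and `c (γ x) (γ ξ) = γ|_x · c x ξ`. Suppose that the isotropy groups act faithfully on
the tree, or only that an element of an isotropy group which acts trivially on the tree is killed by
some iterate of the recursion. Then the group of automorphisms of the tree given by
`Γ` is in `C` if `Γ` is. Indeed, the sections of an element that acts trivially move a point by a
distance that tends to `0`, so they have a fixed point by properness and cocompactness, and then
they are killed by the recursion; so the faithful quotient is a colimit of iterated wreath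
products. Examples are the iterated monodromy groups of the expanding self-coverings of compact
orbispaces. No bound of the activity of the automorphisms is needed.
-/

set_option autoImplicit false

namespace Pool.Agent.Results.MP_28303a_al.ContractingActions

open Pool.Agent.Y462.SS Pool.Agent.W5h38.CA

/-- Let `C` be a class of groups with the closure properties `Closed C`. Let `Γ` be in `C`, `X` finite
and `ψ : Γ → Γ ≀ Sym(X)` a wreath recursion. Let `Γ` act by isometries, properly and
cocompactly, on a nonempty metric space `Y`, and let `c x : Y → Y`, `x ∈ X`, be maps with Lipschitz
constant `lam < 1` such that `c (γ x) (γ ξ) = γ|_x (c x ξ)`, where `γ|_x` is the section of `γ` at `x`.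
Suppose that every `γ` that fixes a point of `Y` and acts trivially on the tree of words over `X`
is killed by some iterate of the recursion (for instance that it is `1`). Then the elements that act
trivially on the tree form a normal subgroup `K`, and `Γ / K` is in `C`. -/
theorem result (C : ∀ (G : Type) [Group G], Prop) (hC : Closed C)
    (X Γ Y : Type) [Finite X] [Group Γ] (hΓ : C Γ) [MetricSpace Y] [Nonempty Y] [MulAction Γ Y]
    [IsIsometricSMul Γ Y] (hprop : ProperAction Γ Y) (hcoc : CocompactAction Γ Y)
    (ψ : Γ →* Wr X Γ) (c : X → Y → Y) (lam : ℝ) (hlam : lam < 1)
    (hc : ∀ x ξ η, dist (c x ξ) (c x η) ≤ lam * dist ξ η)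
    (hcψ : ∀ γ x ξ, c ((ψ γ).p x) (γ • ξ) = (ψ γ).s x • c x ξ)
    (hfix : ∀ (γ : Γ) (ξ : Y), γ • ξ = ξ → TrivialOnTree ψ γ → Dies ψ γ) :
    ∃ (K : Subgroup Γ) (_ : K.Normal), (∀ γ, γ ∈ K ↔ TrivialOnTree ψ γ) ∧ C (Γ ⧸ K) :=
  main C hC hΓ hprop hcoc hlam hc hcψ hfix

end Pool.Agent.Results.MP_28303a_al.ContractingActions
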