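import Pool.Agent.W5h90.TR.Loc

/-!
# Groups acting on trees with detected edge stabilizers

The class `C` of groups is closed under subgroups, finite products, free products, overgroups of finite
index, directed colimits, satisfies the extension criterion of the Farrell-Jones conjecture
(`Pool.Agent.Y110.FJ.ClosedE`) and contains the semidirect products of a free group and `ℤ`.

Let `G` act on a tree `T` (inversions are allowed) with all vertex stabilizers in `C`. Suppose that for
each finitely generated subgroup `H` of `G` and each edge `e` there is a homomorphism from `H` to a group
in `C` which is injective on the stabilizer of `e` in `H`. Then `G` is in `C`. The homomorphisms may have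
large kernels on the vertex stabilizers. For instance `C` is closed under

* amalgamated products `A *_K B` with a homomorphism `f` to a member of `C` which is injective on `K`, as
  the retraction to `A` if `K` is a retract of `B`;
* HNN extensions and fundamental groups of graphs of groups with such a homomorphism.

Outline of the proof. One may assume that `G` is finitely generated and acts without inversions. Then it
acts on a subtree with finitely many orbits of edges, and there is a homomorphism `f` from `G` to a group in
`C` which is injective on all stabilizers of edges. Its kernel `N` acts freely on the edges. A maximal
subtree `F` in which no two edges at a vertex `v` are equivalent under `N_v` meets all orbits of the group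
`M` generated by the groups `N_v`, and by ping-pong `M` is the free product of the groups `N_v`, `v ∈ F`. The
conjugations by the elements of `G` permute the conjugacy classes of these factors, and if `g`
normalizes `N_v ≠ 1`, then `g` fixes `v`, so that `N_v ⟨g⟩` is in `C`. The quotient `N ⧸ M` is free (it is the
image of `N` in a free group on the `N`-orbits of pairs of vertices), so that `G ⧸ M` is in `C`. So `G` is
in `C` by the theorem on extensions with kernels that are free products (`Pool.Agent.R684.FP`).
-/

set_option autoImplicit false

namespace Pool.Agent.Results.MP_28303a_al.DetectedEdges

open Pool.Agent.Y110.FJ

/-- **Groups acting on trees with detected edge stabilizers.** -/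
theorem result (C : ∀ (G : Type) [Group G], Prop) (hC : ClosedE C)
    (hF : ∀ (X : Type) (α : MulAut (FreeGroup X)),
      C (FreeGroup X ⋊[zpowersHom (MulAut (FreeGroup X)) α] Multiplicative ℤ))
    (G V : Type) [Group G] [MulAction G V] (T : SimpleGraph V) (hT : T.IsTree)
    (hadj : ∀ (g : G) (u w : V), T.Adj u w → T.Adj (g • u) (g • w))
    (hvert : ∀ v : V, C (MulAction.stabilizer G v))
    (hedge : ∀ H : Subgroup G, H.FG → ∀ u w : V, T.Adj u w →
      ∃ (P : Type) (_ : Group P) (f : H →* P), C P ∧
        ∀ h : H, h • u = u → h • w = w → f h = 1 → h = 1) : C G :=
  Pool.Agent.W5h90.TR.main hC hF hT hadj hvert hedge

end Pool.Agent.Results.MP_28303a_al.DetectedEdges
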