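import Pool.Agent.W5h2.PA.Main

/-!
# Groups of polynomial automorphisms of the plane

`C` is a class of groups which is closed under subgroups and contains the solvable groups. The Farrell–Jones
groups are such a class, and it is closed under acylindrical actions on trees (Knopf).

Let `k` be a field and let `GA_2(k)` be the group of the automorphisms of the `k`-algebra `k[x, y]`. The
group generated by the affine automorphisms (`affine k`) and the triangular ones (`triangular k`:
`x ↦ a x + p(y)`, `y ↦ b y + c`) is called `tame k`; by the theorem of Jung and van der Kulk it is equal
to `GA_2(k)`.

(1) A torsion-free group `G` of tame automorphisms over any field is in `C` if and only if its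
intersections with the conjugates of the affine group are in `C`.
(2) If `k` has characteristic zero and contains only finitely many roots of unity, then this holds for
all groups `G` of tame automorphisms.
(3) In particular, if `k` is a number field and the affine group of the plane over `k` is in `C`, then
the group of all tame automorphisms is in `C`.

For the class of the Farrell–Jones groups and a number field `k` the affine group is in `C` (Rüping, it is
a subgroup of `GL_3(k)`).

Outline of the proof. The vertices of the tree are the cosets `φ A` and `φ E` of the affine and of the
triangular group, `φ A` and `φ E` are adjacent. It is a tree since twice the degree of `φ` and twice the degree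
of `φ(y)` plus one is a rank function on the vertices for which each vertex has at most one neighbour of
smaller rank. The stabilizers are the conjugates of the affine group and of the triangular group,
which is solvable. Let `g` fix all vertices of a path of length seven. After a conjugation, a linear form
`F = u x + v y + w`, `u ≠ 0`, and `y` are mapped to `a F + c` and `d y + e`, and there are polynomials
`Q`, `Q'` of degrees `n, m ≥ 2` such that `F + Q(y)` and `y + Q'(F)` are mapped to polynomials in
themselves of degree one. So `d ^ n = a` and `a ^ m = d`, and `a`, `d` are roots of unity. If `d = 1`, then `a = 1`,
`Q(y + e) - Q(y)` is constant, and in characteristic zero `e = 0` and likewise `c = 0`. So `g` has finite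
order in all cases, and in characteristic zero it is determined by the root of unity `d`.
-/

set_option autoImplicit false

namespace Pool.Agent.Results.MP_28303a_al.PolynomialAutomorphisms

open Pool.Agent.W5h2.PA

/-- **Groups of polynomial automorphisms of the plane.** -/
theorem result (C : ∀ (G : Type) [Group G], Prop) (hC : SubClosed C)
    (hS : ∀ (S : Type) [Group S], Group.IsSolvable S → C S) :
    (AcylClosed C → ∀ (k : Type) [Field k] (G : Subgroup (GA2 k)), G ≤ tame k → TorsionFree G →
      (C G ↔ AffineParts C G)) ∧
    (AcylClosedFin C → ∀ (k : Type) [Field k] [CharZero k], FewRoots k →
      ∀ G : Subgroup (GA2 k), G ≤ tame k → (C G ↔ AffineParts C G)) ∧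
    (AcylClosedFin C → ∀ (k : Type) [Field k] [NumberField k], C (affine k) → C (tame k)) :=
  ⟨fun hA _ _ G hG htf => main_ga hC hA hS G hG htf,
    fun hA _ _ _ hr G hG => main_ga_fin hC hA hS hr G hG,
    fun hA _ _ _ hk => main_nf hC hA hS hk⟩

end Pool.Agent.Results.MP_28303a_al.PolynomialAutomorphisms
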