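import Pool.Agent.W5h90.SP.Res

/-!
# Linear groups acting on trees with edge stabilizers of finite length

The class `C` of groups is closed under subgroups, finite products, free products, overgroups of finite
index, directed colimits, satisfies the extension criterion of the Farrell-Jones conjecture
(`Pool.Agent.Y110.FJ.ClosedE`) and contains the semidirect products of a free group and `ℤ` and the
groups `GL_n(F)`, `F` a number field. All this is published for the class of groups which satisfy the
Full Farrell-Jones Conjecture.

Let `G` act on a tree `T` (inversions are allowed) with all vertex stabilizers in `C`. Suppose that the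
stabilizer of each edge

* has no infinite descending chain `K_0 ≥ K_1 ≥ ...` of subgroups, all normal in `K_0`, such that no
  quotient `K_i / K_{i+1}` is a torsion group, and all its torsion subgroups are finite; this holds for
  virtually polycyclic groups and, more generally, for virtually solvable groups with finite Hirsch
  length and finite torsion subgroups.

Suppose also that each element `h ≠ 1` of the stabilizer of an edge in a finitely generated subgroup
`H` of `G` is detected, together with its order if this is infinite, by a homomorphism from `H`

* either to a group in `C`,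
* or to `GL_n(L)` for some field `L` of characteristic zero. (These groups are not known to be in `C`.)

Then `G` is in `C`. For instance, `C` contains all groups which are linear over a field of characteristic
zero and act on a tree with vertex stabilizers in `C` and virtually polycyclic edge stabilizers.

Outline of the proof. The image of a representation of `H` is in `GL_n(A)` for a finitely generated
`ℚ`-algebra `A`. By Noether normalization `A` has maximal ideals with residue fields of bounded degree
over `ℚ` outside of each hypersurface. The finite orders of the elements of `GL_n` over these fields are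
bounded, so that one of the specializations of an element of infinite order has infinite order. The
kernels of all specializations are torsion free. By the chain condition, finitely many homomorphisms to
groups in `C` detect all elements of the stabilizer of the edge in `H`. So the theorem on trees with
detected edge stabilizers (`MP_28303a_al.DetectedEdges`) applies.
-/

set_option autoImplicit false

namespace Pool.Agent.Results.MP_28303a_al.ResidualEdges

open Pool.Agent.Y110.FJ

/-- `f h` is nontrivial, and of infinite order if `h` is of infinite order -/
def Keeps {H P : Type} [Group H] [Group P] (f : H →* P) (h : H) : Prop :=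
  f h ≠ 1 ∧ ((∀ n : ℕ, 0 < n → h ^ n ≠ 1) → ∀ n : ℕ, 0 < n → f h ^ n ≠ 1)

/-- **Trees with residually detected edge stabilizers of finite length.** -/
theorem result (C : ∀ (G : Type) [Group G], Prop) (hC : ClosedE C)
    (hF : ∀ (X : Type) (α : MulAut (FreeGroup X)),
      C (FreeGroup X ⋊[zpowersHom (MulAut (FreeGroup X)) α] Multiplicative ℤ))
    (hL : ∀ (F : Type) [Field F] [NumberField F] (n : ℕ),
      C (Matrix.GeneralLinearGroup (Fin n) F))
    (G V : Type) [Group G] [MulAction G V] (T : SimpleGraph V) (hT : T.IsTree)
    (hadj : ∀ (g : G) (u w : V), T.Adj u w → T.Adj (g • u) (g • w))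
    (hvert : ∀ v : V, C (MulAction.stabilizer G v))
    (hchain : ∀ u w : V, T.Adj u w → ∀ K : ℕ → Subgroup G,
      (∀ g ∈ K 0, g • u = u ∧ g • w = w) → (∀ i, K (i + 1) ≤ K i) →
      (∀ i, ∀ x ∈ K 0, ∀ y ∈ K i, x * y * x⁻¹ ∈ K i) →
      ∃ i, ∀ x ∈ K i, ∃ n : ℕ, 0 < n ∧ x ^ n ∈ K (i + 1))
    (htors : ∀ u w : V, T.Adj u w → ∀ K : Subgroup G,
      (∀ g ∈ K, g • u = u ∧ g • w = w ∧ ∃ n : ℕ, 0 < n ∧ g ^ n = 1) → Finite K)
    (hres : ∀ H : Subgroup G, H.FG → ∀ u w : V, T.Adj u w →
      ∀ h : H, h • u = u → h • w = w → h ≠ 1 →
        (∃ (P : Type) (_ : Group P) (f : H →* P), C P ∧ Keeps f h) ∨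
        ∃ (L : Type) (_ : Field L) (_ : CharZero L) (n : ℕ)
          (f : H →* Matrix.GeneralLinearGroup (Fin n) L), Keeps f h) : C G :=
  Pool.Agent.W5h90.SP.main_res hC hF hL hT hadj hvert
    (fun u w huw K h0 h1 h2 => hchain u w huw K (fun _ hg => h0 hg) h1 h2)
    (fun u w huw K hK hKt => htors u w huw K fun g hg => ⟨(hK hg).1, (hK hg).2, hKt g hg⟩)
    hres

end Pool.Agent.Results.MP_28303a_al.ResidualEdges
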